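import Pool.Agent.Y223.G.Stm5
import Pool.Agent.Y223.G.WBase

/-!
# Assembly of the chart theorem `S_CHB`
-/

set_option autoImplicit false

namespace Pool.Agent.Y688.G

open Pool.Agent.Y223.G IsLocalRing

/-- A finite supremum of subalgebras of finite type is of finite type. -/
lemma fg_iSup {O K Ω : Type} [CommRing O] [Field K] [Algebra O K] [Finite Ω]
    (A : Ω → Subalgebra O K) (h : ∀ ω, (A ω).FG) : (⨆ ω, A ω).FG := by
  classical
  choose s hs using h
  have _ := Fintype.ofFinite Ω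
  refine ⟨Finset.univ.biUnion s, ?_⟩
  apply le_antisymm
  · rw [Algebra.adjoin_le_iff]
    intro x hx
    simp only [Finset.coe_biUnion, Finset.coe_univ, Set.mem_univ, Set.iUnion_true,
      Set.mem_iUnion, Finset.mem_coe] at hx
    obtain ⟨i, hi⟩ := hx
    have h1 : x ∈ A i := by
      rw [← hs i]
      exact Algebra.subset_adjoin hi
    exact le_iSup A i h1
  · apply iSup_le
    intro i
    rw [← hs i]
    apply Algebra.adjoin_mono
    intro x hx
    simp only [Finset.coe_biUnion, Finset.coe_univ, Set.mem_univ, Set.iUnion_true,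
      Set.mem_iUnion, Finset.mem_coe]
    exact ⟨i, hx⟩

/-- The product of the family is stable. -/
lemma st_iSup {k O K G Ω : Type} [CommRing k] [CommRing O] [Field K] [Group G] [Algebra k O]
    [Algebra O K] [Algebra k K] [MulAction G Ω] {ρ : G →* (K ≃ₐ[k] K)} {T : G →* (O ≃ₐ[k] O)}
    {A : Ω → Subalgebra O K} (hA : ∀ g ω x, x ∈ A ω → ρ g x ∈ A (g • ω))
    (hT : ∀ g o, ρ g (algebraMap O K o) = algebraMap O K (T g o)) :
    ∀ g, ∀ c ∈ (⨆ ω, A ω : Subalgebra O K), ρ g c ∈ (⨆ ω, A ω : Subalgebra O K) := by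
  intro g c hc
  let S : Subalgebra O K :=
    { carrier := {c | ρ g c ∈ (⨆ ω, A ω : Subalgebra O K)}
      mul_mem' := fun {a b} ha hb => by
        simp only [Set.mem_ofPred_eq] at ha hb ⊢
        rw [map_mul]
        exact mul_mem ha hb
      add_mem' := fun {a b} ha hb => by
        simp only [Set.mem_ofPred_eq] at ha hb ⊢
        rw [map_add]
        exact add_mem ha hb
      algebraMap_mem' := fun o => by
        simp only [Set.mem_ofPred_eq]
        rw [hT]
        exact Subalgebra.algebraMap_mem _ _ }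
  have hS : (⨆ ω, A ω : Subalgebra O K) ≤ S := by
    apply iSup_le
    intro ω x hx
    exact le_iSup A (g • ω) (hA g ω x hx)
  exact hS hc

/-- The restriction of an automorphism to a stable subalgebra. -/
noncomputable def rst {k O K G : Type} [CommRing k] [CommRing O] [Field K] [Group G]
    [Algebra O K] [Algebra k K] (ρ : G →* (K ≃ₐ[k] K)) (C : Subalgebra O K)
    (hC : ∀ g, ∀ c ∈ C, ρ g c ∈ C) (g : G) : C ≃+* C where
  toFun c := ⟨ρ g c, hC g c c.2⟩
  invFun c := ⟨ρ g⁻¹ c, hC g⁻¹ c c.2⟩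
  left_inv c := by
    apply Subtype.ext
    show ρ g⁻¹ (ρ g c) = c
    have : (ρ g⁻¹ * ρ g) (c : K) = c := by rw [← map_mul, inv_mul_cancel, map_one]; rfl
    exact this
  right_inv c := by
    apply Subtype.ext
    show ρ g (ρ g⁻¹ c) = c
    have : (ρ g * ρ g⁻¹) (c : K) = c := by rw [← map_mul, mul_inv_cancel, map_one]; rfl
    exact this
  map_mul' a b := by
    apply Subtype.ext
    show ρ g ((a * b : C) : K) = ρ g a * ρ g b
    rw [← map_mul]; rfl
  map_add' a b := by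
    apply Subtype.ext
    show ρ g ((a + b : C) : K) = ρ g a + ρ g b
    rw [← map_add]; rfl

theorem t_CHB : S_STEPG → S_TAMER → S_REG0 → S_RGCH → S_RGST → S_RGIN → S_BTAM → S_BWLD →
    S_CHB := by
  intro hSTEP hTAM hREG hRGCH hRGST hRGIN hBT hBW k O K G Ω _ _ _ _ _ _ _ _ _ _ _ _ _ _ ρ T N _
    𝔔 p l τ hL A hA hsm K' _ _ ι hι
  have hC1 : ∀ g, ∀ c ∈ (⨆ ω, A ω : Subalgebra O K), ρ g c ∈ (⨆ ω, A ω : Subalgebra O K) :=
    st_iSup (T := T) hA.st hL.com
  have hCfg : (⨆ ω, A ω : Subalgebra O K).FG := by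
    apply fg_iSup
    intro ω
    exact (Subalgebra.fg_iff_finiteType _).2 (hA.ft ω)
  have hCf : Algebra.FiniteType O (⨆ ω, A ω : Subalgebra O K) :=
    (Subalgebra.fg_iff_finiteType _).1 hCfg
  have hON : IsNoetherianRing O := inferInstance
  have hCN : IsNoetherianRing (⨆ ω, A ω : Subalgebra O K) :=
    Algebra.FiniteType.isNoetherianRing O _
  have hp : ∀ i, 0 < p i := by
    intro i
    rcases hL.ty i with ⟨h, _⟩ | ⟨h, _⟩
    · omega
    · exact h.pp.pos
  have hreg : ∀ i, IsRegularRing (RR k (ρ (τ i)) (p i) (𝔔 i) (l i) (⨆ ω, A ω)) := by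
    intro i
    rcases hL.ty i with ⟨h, _⟩ | ⟨hW, hτ, _⟩
    · rw [h]
      exact hTAM k O K (ρ (τ i)) (𝔔 i) (l i) hL.ft hL.inj (hL.mx i) (hL.ne i) _ hCf hA.rg
        (fun Q _ hQ π hπ hπ2 => hBT O K hL.inj Ω A hA.ft hA.ld hA.rg (𝔔 i) (hL.mx i) (hL.ne i)
          (fun ω q _ hq => hsm i ω q hq) Q hQ π hπ hπ2)
    · have hϖ : ∀ ω, (MulAction.toPerm (τ i) : Equiv.Perm Ω)^[p i] ω = ω := by
        intro ω
        have h1 : ∀ n : ℕ, (MulAction.toPerm (τ i) : Equiv.Perm Ω)^[n] ω = (τ i ^ n) • ω := by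
          intro n
          induction n with
          | zero => simp
          | succ n ih =>
            rw [Function.iterate_succ_apply', ih, MulAction.toPerm_apply, smul_smul, pow_succ']
        rw [h1, hτ, one_smul]
      exact hREG k O K (p i) (ρ (τ i)) (T (τ i)) (𝔔 i) (l i) hW _ hCf hA.rg
        (rst ρ _ hC1 (τ i)) (fun c => rfl)
        (fun Q _ hQ hσQ => hBW k O K hL.inj (p i) hW.pp (ρ (τ i)) (T (τ i)) hW.ord hW.com Ω A
          (MulAction.toPerm (τ i)) hϖ (fun ω x hx => hA.st (τ i) ω x hx) hA.ft hA.ld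
          (fun ω hω => hA.fx ω (τ i) hω) (𝔔 i) (fun ω q _ hq => hsm i ω q hq) _ rfl hCN
          (rst ρ _ hC1 (τ i)) (fun c => rfl) Q hQ hσQ)
  refine hSTEP k K K' ι G ρ hι (RG k ρ 𝔔 p l τ (⨆ ω, A ω))
    (hRGCH k O K G ρ T N 𝔔 p l τ hL _ hC1 hCf hA.rg hreg)
    (hRGST k O K G ρ T N 𝔔 p l τ hL _ hC1) ?_
    (hRGIN k O K G ρ T N 𝔔 p l τ hL _ hC1 _ rfl)
  intro g hg
  apply hL.al ⊥ Ideal.isPrime_bot (fun i h => hL.ne i h.symm)
  intro o
  rw [Ideal.mem_bot, sub_eq_zero]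
  apply hL.inj
  rw [← hL.com]
  have ho : hm 0 (algebraMap O K o) ∈ RG k ρ 𝔔 p l τ (⨆ ω, A ω) := by
    exact Algebra.mem_inf.2 ⟨RR_c one_pos (Subalgebra.algebraMap_mem _ _),
      Algebra.mem_iInf.2 fun i => RR_c (hp i) (Subalgebra.algebraMap_mem _ _)⟩
  have h1 := hg _ ho
  rw [tl_hm] at h1
  exact hm_inj h1

end Pool.Agent.Y688.G
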